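import Pool.Agent.V11286.NE.Tup

/-! From the number of the exceptional points of the boxes `∏ (x_i, x_i + N]` to windows along sequences (an application of
`ae_tuples` of helper286). -/

set_option autoImplicit false

namespace Pool.Agent.H223.NP

open MeasureTheory Filter

theorem box_windows {k : ℕ} (Good : (Fin k → ℕ) → Prop) {c C : ℝ} (hc : 0 < c)
    (h : ∀ N : ℕ, 1 ≤ N → (({t : Fin k → ℕ | (∀ i, 0 < t i ∧ t i ≤ 0 + N) ∧ ¬ Good t}.ncard : ℕ) : ℝ) ≤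
      C * (N : ℝ) ^ (k - 1) * ∑ _i : Fin k, (1 + (N : ℝ) / (((0 : ℕ) : ℝ) + N) ^ c))
    {v : ℕ → ℝ} (hv1 : ∀ n, 1 ≤ v n) (hv : ∀ s : ℝ, 0 < s → Summable fun n : ℕ => (v n) ^ (-s)) {θ : ℝ}
    (hθ : k * θ < min c 1) :
    ∀ᵐ α : Fin k → ℝ, ∃ n₀ : ℕ, ∀ n : ℕ, n₀ ≤ n → ∀ t : Fin k → ℕ, (∀ i, 1 ≤ t i) →
      (∀ i, |(t i : ℝ) - α i * v n| ≤ (v n) ^ θ) → Good t := by
  rcases Nat.eq_zero_or_pos k with rfl | hk
  · refine Eventually.of_forall fun α => ⟨0, fun n _ t _ _ => ?_⟩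
    by_contra hbad
    have h1 := h 1 le_rfl
    have h2 : {t : Fin 0 → ℕ | (∀ i, 0 < t i ∧ t i ≤ 0 + 1) ∧ ¬ Good t} = {t} := by
      ext s
      have hs : s = t := Subsingleton.elim s t
      subst hs
      simp only [Set.mem_ofPred_eq, Set.mem_singleton_iff, iff_true]
      exact ⟨fun i => i.elim0, hbad⟩
    rw [h2, Set.ncard_singleton] at h1
    simp at h1
    linarith
  · have hk1 : (1 : ℝ) ≤ k := by exact_mod_cast hk
    set c' : ℝ := min c 1 with hc'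
    have hc'1 : c' ≤ 1 := min_le_right _ _
    have hc'c : c' ≤ c := min_le_left _ _
    have hc'0 : 0 < c' := lt_min hc one_pos
    have hθ1 : θ ≤ 1 := by
      by_contra hcon
      push Not at hcon
      nlinarith
    have hcount : ∀ T : ℕ, 1 ≤ T → ({t : Fin k → ℕ | (∀ i, t i ≤ T) ∧
        t ∈ {t : Fin k → ℕ | (∀ i, 1 ≤ t i) ∧ ¬ Good t}}.ncard : ℝ) ≤
        (|C| * (k * 2)) * (T : ℝ) ^ ((k : ℝ) - c') := by
      intro T hT
      have hT1 : (1 : ℝ) ≤ T := by exact_mod_cast hT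
      have hT0 : (0 : ℝ) < T := by linarith
      have e1 : {t : Fin k → ℕ | (∀ i, t i ≤ T) ∧ t ∈ {t : Fin k → ℕ | (∀ i, 1 ≤ t i) ∧ ¬ Good t}} =
          {t : Fin k → ℕ | (∀ i, 0 < t i ∧ t i ≤ 0 + T) ∧ ¬ Good t} := by
        ext t
        simp only [Set.mem_ofPred_eq, zero_add]
        constructor
        · rintro ⟨h1, h2, h3⟩
          exact ⟨fun i => ⟨h2 i, h1 i⟩, h3⟩
        · rintro ⟨h1, h3⟩
          exact ⟨fun i => (h1 i).2, fun i => (h1 i).1, h3⟩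
      rw [e1]
      refine (h T hT).trans ?_
      have h4 : (1 : ℝ) + (T : ℝ) / (((0 : ℕ) : ℝ) + T) ^ c ≤ 2 * (T : ℝ) ^ (1 - c') := by
        rw [Nat.cast_zero, zero_add]
        have h5 : (T : ℝ) / (T : ℝ) ^ c ≤ (T : ℝ) ^ (1 - c') := by
          rw [Real.rpow_sub hT0, Real.rpow_one]
          exact div_le_div_of_nonneg_left hT0.le (by positivity) (Real.rpow_le_rpow_of_exponent_le hT1 hc'c)
        have h6 : (1 : ℝ) ≤ (T : ℝ) ^ (1 - c') := Real.one_le_rpow hT1 (by linarith)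
        linarith
      have h7 : ∑ _i : Fin k, ((1 : ℝ) + (T : ℝ) / (((0 : ℕ) : ℝ) + T) ^ c) ≤ k * (2 * (T : ℝ) ^ (1 - c')) := by
        rw [Finset.sum_const, Finset.card_univ, Fintype.card_fin, nsmul_eq_mul]
        exact mul_le_mul_of_nonneg_left h4 (by positivity)
      have h8 : (0 : ℝ) ≤ ∑ _i : Fin k, ((1 : ℝ) + (T : ℝ) / (((0 : ℕ) : ℝ) + T) ^ c) :=
        Finset.sum_nonneg fun i _ => by positivity
      calc C * (T : ℝ) ^ (k - 1) * ∑ _i : Fin k, ((1 : ℝ) + (T : ℝ) / (((0 : ℕ) : ℝ) + T) ^ c)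
          ≤ |C| * (T : ℝ) ^ (k - 1) * ∑ _i : Fin k, ((1 : ℝ) + (T : ℝ) / (((0 : ℕ) : ℝ) + T) ^ c) := by
            refine mul_le_mul_of_nonneg_right ?_ h8
            exact mul_le_mul_of_nonneg_right (le_abs_self C) (by positivity)
        _ ≤ |C| * (T : ℝ) ^ (k - 1) * (k * (2 * (T : ℝ) ^ (1 - c'))) :=
            mul_le_mul_of_nonneg_left h7 (by positivity)
        _ = (|C| * (k * 2)) * ((T : ℝ) ^ (((k - 1 : ℕ) : ℝ)) * (T : ℝ) ^ (1 - c')) := by
            rw [Real.rpow_natCast]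
            ring
        _ = (|C| * (k * 2)) * (T : ℝ) ^ ((k : ℝ) - c') := by
            rw [← Real.rpow_add hT0, Nat.cast_sub hk]
            congr 2
            push_cast
            ring
    have hmain := Pool.Agent.V11286.NE.ae_tuples (k := k) {t : Fin k → ℕ | (∀ i, 1 ≤ t i) ∧ ¬ Good t} hcount
      (by linarith) hv1 hv hθ1 hθ
    filter_upwards [hmain] with α hα
    obtain ⟨n₀, hn₀⟩ := hα
    refine ⟨n₀, fun n hn t ht1 ht => ?_⟩
    by_contra hbad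
    exact hn₀ n hn t ht ⟨ht1, hbad⟩

end Pool.Agent.H223.NP
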