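import Pool.Agent.Helper264.NT.NearK

/-! Tuples of elements of all number fields near points: from hypersurface covers of the exceptional tuples at every scale
to statements near all points outside of a set of dimension `n - 1` (real) or `2 (n - 1)` (complex); the abstract
theorem `near_all` of helper264 for an arbitrary kind of relations. -/

set_option autoImplicit false
set_option linter.unusedSectionVars false

namespace Pool.Agent.H223.NP

open Filter Topology MeasureTheory Set Height Pool.Agent.Helper264.NT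
open scoped ENNReal NNReal

/-- the relations with increasing sizes: the relation of size `T ^ A` up to `T ^ (-B)` -/
theorem near_fields {𝕜 : Type} [RCLike 𝕜] {X : Type} [Fintype X] [DecidableEq X] [Nonempty X] (S : X → Set 𝕜)
    (hSo : ∀ x, IsOpen (S x))
    (R : ∀ (K : IntermediateField ℚ 𝕜) [NumberField K], ℕ → ℝ → ℝ → (X → K) → Prop)
    (hmono : ∀ (K : IntermediateField ℚ 𝕜) [NumberField K] (d : ℕ) (U U' δ δ' : ℝ) (t : X → K), U ≤ U' → δ ≤ δ' →
      R K d U δ t → R K d U' δ' t)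
    (hcov : ∀ (K : IntermediateField ℚ 𝕜) [NumberField K] (d A : ℕ) (W : X → Set 𝕜), (∀ x, IsCompact (W x)) →
      (∀ x, W x ⊆ S x) → ∀ ε : ℝ, 0 < ε → ∃ (D : ℕ) (B C : ℝ), ∀ T : ℝ, 1 ≤ T →
        ∃ Φ : Finset (MvPolynomial X K), (Φ.card : ℝ) ≤ C * T ^ ε ∧ (∀ Q ∈ Φ, Q ≠ 0 ∧ Q.totalDegree ≤ D) ∧
          ∀ t : X → K, (∀ x, (t x : 𝕜) ∈ W x ∧ mulHeight₁ (t x) ≤ T) → R K d (T ^ (A : ℝ)) (T ^ (-B)) t →
            ∃ Q ∈ Φ, MvPolynomial.eval t Q = 0) :
    ∃ E : Set (X → 𝕜), dimH E ≤ ((Module.finrank ℝ 𝕜 * (Fintype.card X - 1) : ℕ) : ℝ≥0∞) ∧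
      ∀ z ∉ E, (∀ x, z x ∈ S x) → ∀ (K : IntermediateField ℚ 𝕜) [NumberField K] (d : ℕ) (A w : ℝ), 0 < w →
        ∃ B T₀ : ℝ, ∀ T ≥ T₀, ∀ t : X → K, (∀ x, mulHeight₁ (t x) ≤ T ∧ ‖(t x : 𝕜) - z x‖ ≤ T ^ (-w)) →
          ¬ R K d (T ^ A) (T ^ (-B)) t := by
  classical
  let J : Type := {K : IntermediateField ℚ 𝕜 // NumberField K} × (ℕ × ℕ × ℕ)
  have : Countable {K : IntermediateField ℚ 𝕜 // NumberField K} := countable_fields'.to_subtype
  let Ex : J → ℝ → ℝ → Set (X → 𝕜) := fun j B T =>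
    haveI : NumberField j.1.1 := j.1.2
    (fun (t : X → j.1.1) (x : X) => (t x : 𝕜)) ''
      {t : X → j.1.1 | (∀ x, (t x : 𝕜) ∈ core (S x) j.2.2.2 ∧ mulHeight₁ (t x) ≤ T) ∧
        R j.1.1 j.2.1 (T ^ (j.2.2.1 : ℝ)) (T ^ (-B)) t}
  have hThin : ∀ j : J, Thin (max 1 (j.2.2.2 : ℝ)) (Ex j) := by
    intro j
    have : NumberField j.1.1 := j.1.2
    refine ⟨?_, ?_, ?_, ?_⟩
    · rintro B T _ ⟨t, ht, rfl⟩
      rw [mem_closedBall_zero_iff, pi_norm_le_iff_of_nonneg (by positivity)]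
      intro x
      have h1 := (ht.1 x).1.1
      rw [mem_closedBall_zero_iff] at h1
      exact h1.trans (le_max_right _ _)
    · rintro B B' T T' hB hBB hT h2T hTT hT2 _ ⟨t, ⟨ht, hR⟩, rfl⟩
      refine ⟨t, ⟨fun x => ⟨(ht x).1, (ht x).2.trans hTT⟩, hmono _ _ _ _ _ _ _ ?_
        (val_mono' hB hBB hT h2T hTT hT2) hR⟩, rfl⟩
      exact Real.rpow_le_rpow (by linarith) hTT (Nat.cast_nonneg _)
    · rintro B B' T hT hBB _ ⟨t, ⟨ht, hR⟩, rfl⟩
      exact ⟨t, ⟨ht, hmono _ _ _ _ _ _ _ le_rfl (Real.rpow_le_rpow_of_exponent_le hT (by linarith)) hR⟩, rfl⟩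
    · intro ε hε
      obtain ⟨D, B, C, h⟩ := hcov j.1.1 j.2.1 j.2.2.1 (fun x => core (S x) j.2.2.2) (fun x => core_compact _ _)
        (fun x => core_sub _ _) ε hε
      refine ⟨D, B, C, ?_, fun T hT => ?_⟩
      · obtain ⟨Φ, h1, -, -⟩ := h 1 le_rfl
        rw [Real.one_rpow, mul_one] at h1
        exact (Nat.cast_nonneg _).trans h1
      obtain ⟨Φ, h1, h2, h3⟩ := h T hT
      have hinj : Function.Injective (algebraMap j.1.1 𝕜) := (algebraMap j.1.1 𝕜).injective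
      refine ⟨Φ.image (MvPolynomial.map (algebraMap j.1.1 𝕜)), ?_, ?_, ?_⟩
      · refine le_trans ?_ h1
        exact_mod_cast Finset.card_image_le
      · intro P hP
        obtain ⟨Q, hQ, rfl⟩ := Finset.mem_image.1 hP
        refine ⟨?_, ?_⟩
        · intro h0
          exact (h2 Q hQ).1 (MvPolynomial.map_injective _ hinj (by rw [h0, map_zero]))
        · refine le_trans ?_ (h2 Q hQ).2
          exact Finset.sup_mono (MvPolynomial.support_map_subset _ _)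
      · rintro _ ⟨t, ⟨ht, hR⟩, rfl⟩
        obtain ⟨Q, hQ, h0⟩ := h3 t ht hR
        refine ⟨_, Finset.mem_image_of_mem _ hQ, ?_⟩
        rw [MvPolynomial.aeval_def, MvPolynomial.eval₂_map]
        have h5 : MvPolynomial.eval₂ ((algebraMap 𝕜 𝕜).comp (algebraMap j.1.1 𝕜)) (fun x => (t x : 𝕜)) Q =
            algebraMap j.1.1 𝕜 (MvPolynomial.eval t Q) := by
          rw [← MvPolynomial.eval₂_id, MvPolynomial.hom_eval₂]
          rfl
        rw [h5, h0, map_zero]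
  obtain ⟨E, hE1, hE2⟩ := near_all (fun j : J => max 1 (j.2.2.2 : ℝ)) (fun j => le_max_left _ _) Ex hThin
  refine ⟨E, hE1, fun z hz hzS K hK d A w hw => ?_⟩
  choose q ρ hρ hq using fun x => core_near (S x) (hSo x) (z x) (hzS x)
  obtain ⟨Q, hQ⟩ := (Finset.image q Finset.univ).exists_le
  obtain ⟨M, hM⟩ := (Finset.image (fun x => (ρ x)⁻¹) Finset.univ).exists_le
  obtain ⟨B, T0, hB⟩ := hE2 z hz (⟨K, hK⟩, d, ⌈A⌉₊, Q) w hw
  refine ⟨B, max (max 1 T0) ((max M 1) ^ (1 / w)), fun T hT t ht hrel => ?_⟩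
  have hT1 : 1 ≤ T := le_trans (le_trans (le_max_left _ _) (le_max_left _ _)) hT
  have hTT0 : T0 ≤ T := le_trans (le_trans (le_max_right _ _) (le_max_left _ _)) hT
  have hTM : (max M 1) ^ (1 / w) ≤ T := le_trans (le_max_right _ _) hT
  have hTpos : 0 < T := by linarith
  have hM1 : (0 : ℝ) < max M 1 := lt_max_of_lt_right one_pos
  have hTw : T ^ (-w) ≤ (max M 1)⁻¹ := by
    rw [Real.rpow_neg hTpos.le]
    refine inv_anti₀ hM1 ?_
    have h1 := Real.rpow_le_rpow (Real.rpow_nonneg hM1.le _) hTM hw.le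
    rwa [← Real.rpow_mul hM1.le, one_div_mul_cancel hw.ne', Real.rpow_one] at h1
  refine hB T hTT0 (fun x => (t x : 𝕜)) ⟨t, ⟨fun x => ⟨?_, (ht x).1⟩, ?_⟩, rfl⟩ ?_
  · refine hq x Q (hQ _ (Finset.mem_image_of_mem _ (Finset.mem_univ x))) _ ((ht x).2.trans (hTw.trans ?_))
    have h2 := hM _ (Finset.mem_image_of_mem _ (Finset.mem_univ x))
    rw [inv_le_comm₀ hM1 (hρ x)]
    exact h2.trans (le_max_left _ _)
  · exact hmono _ _ _ _ _ _ _ (Real.rpow_le_rpow_of_exponent_le hT1 (Nat.le_ceil A)) le_rfl hrel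
  · rw [dist_pi_le_iff (Real.rpow_nonneg hTpos.le _)]
    intro x
    rw [dist_eq_norm]
    exact (ht x).2

/-- compact subsets of the half-line are in a common segment -/
theorem compact_pos {n : ℕ} (W : Fin n → Set ℝ) (hW : ∀ x, IsCompact (W x)) (hW0 : ∀ x, W x ⊆ Ioi 0) :
    ∃ a b : ℝ, 0 < a ∧ a < b ∧ ∀ x, W x ⊆ Icc a b := by
  have h1 : ∀ x, ∃ a b : ℝ, 0 < a ∧ W x ⊆ Icc a b := by
    intro x
    rcases (W x).eq_empty_or_nonempty with h | h
    · exact ⟨1, 1, one_pos, by rw [h]; exact empty_subset _⟩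
    · obtain ⟨a, ha, h2⟩ := (hW x).exists_isLeast h
      obtain ⟨b, -, h3⟩ := (hW x).exists_isGreatest h
      exact ⟨a, b, hW0 x ha, fun t ht => ⟨h2 ht, h3 ht⟩⟩
  choose a b ha hab using h1
  obtain ⟨M, hM⟩ := (Finset.image (fun x => (a x)⁻¹) Finset.univ).exists_le
  obtain ⟨N, hN⟩ := (Finset.image b Finset.univ).exists_le
  have hM1 : (0 : ℝ) < max M 1 := lt_max_of_lt_right one_pos
  refine ⟨(max M 1)⁻¹, max N (1 + (max M 1)⁻¹), inv_pos.2 hM1, ?_, fun x t ht => ?_⟩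
  · refine lt_of_lt_of_le ?_ (le_max_right _ _)
    linarith
  · obtain ⟨h2, h3⟩ := hab x ht
    have h4 := hM _ (Finset.mem_image_of_mem _ (Finset.mem_univ x))
    have h5 := hN _ (Finset.mem_image_of_mem _ (Finset.mem_univ x))
    refine ⟨?_, (h3.trans h5).trans (le_max_left _ _)⟩
    refine le_trans ?_ h2
    rw [inv_le_comm₀ hM1 (ha x)]
    exact h4.trans (le_max_left _ _)

end Pool.Agent.H223.NP
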