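import Pool.Agent.H107.MetricPi

set_option autoImplicit false

/-! Tuples of rational numbers near almost every point of `ℝ ^ n`: exceptional sets which depend on the scale. -/

namespace Pool.Agent.H223.NP

open Filter Topology MeasureTheory Set
open scoped ENNReal NNReal

/-- from exceptional sets which depend on the scale to one set -/
theorem count_dyadic {P : Type*} (h : P → ℝ) (S : Set P) (Exc : ℝ → Set P) {s C X₀ : ℝ} (hs : 0 < s)
    (hS : ∀ t ∈ S, ∀ T : ℝ, X₀ ≤ T → h t ≤ T → T ≤ 2 * h t → t ∈ Exc T)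
    (hfin : ∀ X : ℝ, {t | t ∈ S ∧ h t ≤ X}.Finite)
    (hE : ∀ T : ℝ, 1 ≤ T → (Exc T).Finite ∧ ((Exc T).ncard : ℝ) ≤ C * T ^ s) :
    ∃ C' : ℝ, ∀ X : ℝ, 1 ≤ X → {t | t ∈ S ∧ h t ≤ X}.Finite ∧ ({t | t ∈ S ∧ h t ≤ X}.ncard : ℝ) ≤ C' * X ^ s := by
  set Y : ℝ := max X₀ 1 with hY
  have hY1 : 1 ≤ Y := le_max_right _ _
  have hY0 : X₀ ≤ Y := le_max_left _ _
  have h2s : 1 < (2 : ℝ) ^ s := Real.one_lt_rpow (by norm_num) hs
  have hd : 0 < (2 : ℝ) ^ s - 1 := by linarith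
  set N : ℝ → ℝ := fun X => ({t | t ∈ S ∧ h t ≤ X}.ncard : ℝ) with hN
  have hstep : ∀ k : ℕ, N (2 ^ k * Y) ≤ N Y + |C| * Y ^ s * (((2 : ℝ) ^ s) ^ (k + 1) / ((2 : ℝ) ^ s - 1)) := by
    intro k
    induction k with
    | zero =>
        have h6 : 0 ≤ |C| * Y ^ s * (((2 : ℝ) ^ s) ^ (0 + 1) / ((2 : ℝ) ^ s - 1)) := by positivity
        have h7 : N (2 ^ 0 * Y) = N Y := by rw [pow_zero, one_mul]
        rw [h7]
        exact le_add_of_nonneg_right h6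
    | succ k ih =>
        have hT1 : 1 ≤ 2 ^ (k + 1) * Y := by
          have : 1 ≤ (2 : ℝ) ^ (k + 1) := one_le_pow₀ (by norm_num)
          nlinarith
        obtain ⟨hf, hc⟩ := hE (2 ^ (k + 1) * Y) hT1
        have hsub : {t | t ∈ S ∧ h t ≤ 2 ^ (k + 1) * Y} ⊆ {t | t ∈ S ∧ h t ≤ 2 ^ k * Y} ∪ Exc (2 ^ (k + 1) * Y) := by
          rintro t ⟨ht1, ht2⟩
          by_cases h3 : h t ≤ 2 ^ k * Y
          · exact Or.inl ⟨ht1, h3⟩
          · right
            push Not at h3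
            refine hS t ht1 _ ?_ ht2 ?_
            · have : 1 ≤ (2 : ℝ) ^ (k + 1) := one_le_pow₀ (by norm_num)
              nlinarith
            · rw [pow_succ]
              linarith
        have h1 := Set.ncard_le_ncard hsub ((hfin _).union hf)
        have h2 := h1.trans (Set.ncard_union_le _ _)
        have h3 : N (2 ^ (k + 1) * Y) ≤ N (2 ^ k * Y) + ((Exc (2 ^ (k + 1) * Y)).ncard : ℝ) := by
          have h30 := (Nat.cast_le (α := ℝ)).2 h2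
          rw [Nat.cast_add] at h30
          exact h30
        have h4 : ((Exc (2 ^ (k + 1) * Y)).ncard : ℝ) ≤ |C| * Y ^ s * ((2 : ℝ) ^ s) ^ (k + 1) := by
          refine hc.trans ?_
          have e : (2 ^ (k + 1) * Y) ^ s = ((2 : ℝ) ^ s) ^ (k + 1) * Y ^ s := by
            rw [Real.mul_rpow (by positivity) (by linarith), ← Real.rpow_natCast, ← Real.rpow_natCast,
              ← Real.rpow_mul (by norm_num), ← Real.rpow_mul (by norm_num), mul_comm s]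
          rw [e]
          have h5 : C ≤ |C| := le_abs_self C
          have h6 : 0 ≤ ((2 : ℝ) ^ s) ^ (k + 1) * Y ^ s := by positivity
          nlinarith
        have h5 : ((2 : ℝ) ^ s) ^ (k + 1 + 1) / ((2 : ℝ) ^ s - 1) =
            ((2 : ℝ) ^ s) ^ (k + 1) / ((2 : ℝ) ^ s - 1) + ((2 : ℝ) ^ s) ^ (k + 1) := by
          field_simp
          ring
        rw [h5]
        calc N (2 ^ (k + 1) * Y) ≤ N (2 ^ k * Y) + ((Exc (2 ^ (k + 1) * Y)).ncard : ℝ) := h3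
          _ ≤ (N Y + |C| * Y ^ s * (((2 : ℝ) ^ s) ^ (k + 1) / ((2 : ℝ) ^ s - 1))) +
              |C| * Y ^ s * ((2 : ℝ) ^ s) ^ (k + 1) := add_le_add ih h4
          _ = _ := by ring
  refine ⟨N Y + |C| * Y ^ s * ((2 : ℝ) ^ s * 2 ^ s / ((2 : ℝ) ^ s - 1)), fun X hX => ⟨hfin X, ?_⟩⟩
  obtain ⟨k, hk1, hk2⟩ := exists_nat_pow_near hX (by norm_num : (1 : ℝ) < 2)
  have hXY : X ≤ 2 ^ (k + 1) * Y := by
    have : 0 < (2 : ℝ) ^ (k + 1) := by positivity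
    nlinarith
  have h1 : N X ≤ N (2 ^ (k + 1) * Y) := by
    have hsub : {t | t ∈ S ∧ h t ≤ X} ⊆ {t | t ∈ S ∧ h t ≤ 2 ^ (k + 1) * Y} := fun t ht => ⟨ht.1, ht.2.trans hXY⟩
    exact (Nat.cast_le (α := ℝ)).2 (Set.ncard_le_ncard hsub (hfin _))
  have h2 := h1.trans (hstep (k + 1))
  have hX1 : 1 ≤ X ^ s := Real.one_le_rpow hX hs.le
  have hNY : 0 ≤ N Y := Nat.cast_nonneg _
  have h3 : ((2 : ℝ) ^ s) ^ (k + 1 + 1) ≤ (2 : ℝ) ^ s * 2 ^ s * X ^ s := by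
    have h4 : ((2 : ℝ) ^ s) ^ k ≤ X ^ s := by
      calc ((2 : ℝ) ^ s) ^ k = ((2 : ℝ) ^ k) ^ s := by
            rw [← Real.rpow_natCast, ← Real.rpow_natCast, ← Real.rpow_mul (by norm_num), ← Real.rpow_mul (by norm_num),
              mul_comm]
        _ ≤ X ^ s := Real.rpow_le_rpow (by positivity) hk1 hs.le
    have h5 : 0 ≤ (2 : ℝ) ^ s := by positivity
    calc ((2 : ℝ) ^ s) ^ (k + 1 + 1) = (2 : ℝ) ^ s * 2 ^ s * ((2 : ℝ) ^ s) ^ k := by ring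
      _ ≤ (2 : ℝ) ^ s * 2 ^ s * X ^ s := mul_le_mul_of_nonneg_left h4 (by positivity)
  calc N X ≤ N Y + |C| * Y ^ s * (((2 : ℝ) ^ s) ^ (k + 1 + 1) / ((2 : ℝ) ^ s - 1)) := h2
    _ ≤ N Y * X ^ s + |C| * Y ^ s * ((2 : ℝ) ^ s * 2 ^ s * X ^ s / ((2 : ℝ) ^ s - 1)) := by
        apply add_le_add
        · nlinarith
        · apply mul_le_mul_of_nonneg_left _ (by positivity)
          exact (div_le_div_iff_of_pos_right hd).2 h3
    _ = _ := by ring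

section

variable {n : ℕ} (ht : ℚ → ℝ)

/-- the size of a tuple: the maximum of the sizes of the components, and of one -/
noncomputable def size (x : Fin n → ℚ) : ℝ := max 1 (⨆ l, ht (x l))

lemma one_le_size (x : Fin n → ℚ) : 1 ≤ size ht x := le_max_left _ _

lemma le_size (x : Fin n → ℚ) (l : Fin n) : ht (x l) ≤ size ht x :=
  (le_ciSup (f := fun l => ht (x l)) (Set.finite_range _).bddAbove l).trans (le_max_right _ _)

lemma size_le {x : Fin n → ℚ} {T : ℝ} (h1 : 1 ≤ T) (h : ∀ l, ht (x l) ≤ T) : size ht x ≤ T := by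
  refine max_le h1 ?_
  rcases Nat.eq_zero_or_pos n with rfl | hn
  · rw [Real.iSup_of_isEmpty]
    linarith
  · haveI : Nonempty (Fin n) := ⟨⟨0, hn⟩⟩
    exact ciSup_le h

variable {ht}

lemma finite_box (htf : ∀ a b T : ℝ, {q : ℚ | (q : ℝ) ∈ Icc a b ∧ ht q ≤ T}.Finite) (a b T : ℝ) :
    {x : Fin n → ℚ | (∀ l, (x l : ℝ) ∈ Icc a b) ∧ size ht x ≤ T}.Finite := by
  refine (Set.Finite.pi' (t := fun _ : Fin n => {q : ℚ | (q : ℝ) ∈ Icc a b ∧ ht q ≤ T}) (fun _ => htf a b T)).subset ?_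
  rintro x ⟨h1, h2⟩ l
  exact ⟨h1 l, (le_size ht x l).trans h2⟩

/-- the tuples of the box `[1 / (m + 1), m + 1] ^ n` which satisfy a relation of the size -/
def Bad {J : Type*} (ht : ℚ → ℝ) (Rel : J → (Fin n → ℚ) → ℝ → ℝ → Prop) (j : J) (A B : ℝ) (m : ℕ) : Set (Fin n → ℚ) :=
  {x | (∀ l, (x l : ℝ) ∈ Icc (1 / ((m : ℝ) + 2)) ((m : ℝ) + 2)) ∧ Rel j x (size ht x ^ A) (size ht x ^ (-B))}

/-- **Near all points outside a small set.** `Rel j x U δ`: some relation of the kind `j` and of size at most `U` holds at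
`x` up to the error `δ`. Suppose that for all `A`, `a`, `b`, `ε` there are `B`, `C` such that for at most
`C T ^ (s + ε)` tuples of rational numbers of `[a, b]` of size at most `T` the relation holds with `U = T ^ A`,
`δ = T ^ (-B)`. Then for all `σ > 0` and all `ξ` outside a set of dimension at most `s / σ`, with positive coordinates, for
all `j`, `A` there is `B` such that only finitely many tuples `x` with `|x_l - ξ_l| ≤ size(x) ^ (-σ)` satisfy the relation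
with `U = size(x) ^ A`, `δ = size(x) ^ (-B)`. -/
theorem near_dim {J : Type*} [Countable J]
    (htf : ∀ a b T : ℝ, {q : ℚ | (q : ℝ) ∈ Icc a b ∧ ht q ≤ T}.Finite)
    (Rel : J → (Fin n → ℚ) → ℝ → ℝ → Prop)
    (hmono : ∀ j x U U' δ δ', U ≤ U' → δ ≤ δ' → Rel j x U δ → Rel j x U' δ')
    {s : ℝ} (hs : 0 ≤ s)
    (hcount : ∀ (j : J) (A : ℕ) (a b ε : ℝ), 0 < a → a < b → 0 < ε → ∃ B C : ℝ, ∀ T : ℝ, 1 ≤ T →
      {x : Fin n → ℚ | (∀ l, (x l : ℝ) ∈ Icc a b ∧ ht (x l) ≤ T) ∧ Rel j x (T ^ (A : ℝ)) (T ^ (-B))}.Finite ∧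
      ({x : Fin n → ℚ | (∀ l, (x l : ℝ) ∈ Icc a b ∧ ht (x l) ≤ T) ∧ Rel j x (T ^ (A : ℝ)) (T ^ (-B))}.ncard : ℝ) ≤
        C * T ^ (s + ε))
    {σ : ℝ} (hσ : 0 < σ) :
    ∃ E : Set (Fin n → ℝ), dimH E ≤ ENNReal.ofReal (s / σ) ∧ ∀ ξ : Fin n → ℝ, (∀ l, 0 < ξ l) → ξ ∉ E →
      ∀ (j : J) (A : ℝ), ∃ B : ℝ, {x : Fin n → ℚ | (∀ l, |(x l : ℝ) - ξ l| ≤ size ht x ^ (-σ)) ∧
        Rel j x (size ht x ^ A) (size ht x ^ (-B))}.Finite := by
  -- the counts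
  have hc : ∀ (j : J) (A k m : ℕ), ∃ B : ℝ, ∃ C : ℝ, ∀ X : ℝ, 1 ≤ X →
      {x | x ∈ Bad ht Rel j A B m ∧ size ht x ≤ X}.Finite ∧
      ({x | x ∈ Bad ht Rel j A B m ∧ size ht x ≤ X}.ncard : ℝ) ≤ C * X ^ (s + 1 / ((k : ℝ) + 1)) := by
    intro j A k m
    have hk : (0 : ℝ) < 1 / ((k : ℝ) + 1) := by positivity
    have hab : 1 / ((m : ℝ) + 2) < (m : ℝ) + 2 := by
      have h0 : (0 : ℝ) ≤ m := Nat.cast_nonneg m
      rw [div_lt_iff₀ (by positivity)]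
      nlinarith
    obtain ⟨B, C, hBC⟩ := hcount j A (1 / ((m : ℝ) + 2)) ((m : ℝ) + 2) (1 / ((k : ℝ) + 1)) (by positivity) hab hk
    refine ⟨2 * max B 1, ?_⟩
    have hB1 : 1 ≤ max B 1 := le_max_right _ _
    refine count_dyadic (C := C) (X₀ := 4) (size ht) (Bad ht Rel j A (2 * max B 1) m)
      (fun T => {x : Fin n → ℚ | (∀ l, (x l : ℝ) ∈ Icc (1 / ((m : ℝ) + 2)) ((m : ℝ) + 2) ∧ ht (x l) ≤ T) ∧
        Rel j x (T ^ (A : ℝ)) (T ^ (-B))}) (by linarith) ?_ ?_ hBC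
    · rintro x ⟨h1, h2⟩ T hT1 hT2 hT3
      refine ⟨fun l => ⟨h1 l, (le_size ht x l).trans hT2⟩, hmono j x _ _ _ _ ?_ ?_ h2⟩
      · exact Real.rpow_le_rpow (by linarith [one_le_size ht x]) hT2 (Nat.cast_nonneg A)
      · -- `size ^ (-2 B') ≤ T ^ (-B)`
        have hx1 := one_le_size ht x
        have hx2 : T ^ (1 / 2 : ℝ) ≤ size ht x := by
          rw [← Real.sqrt_eq_rpow]
          refine (Real.sqrt_le_left (by linarith)).2 ?_
          nlinarith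
        calc size ht x ^ (-(2 * max B 1)) ≤ (T ^ (1 / 2 : ℝ)) ^ (-(2 * max B 1)) :=
              Real.rpow_le_rpow_of_nonpos (by positivity) hx2 (by linarith)
          _ = T ^ (-(max B 1)) := by
              rw [← Real.rpow_mul (by linarith)]
              congr 1
              ring
          _ ≤ T ^ (-B) := Real.rpow_le_rpow_of_exponent_le (by linarith) (neg_le_neg (le_max_left _ _))
    · intro X
      refine (finite_box htf (1 / ((m : ℝ) + 2)) ((m : ℝ) + 2) X).subset ?_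
      rintro x ⟨⟨h1, -⟩, h2⟩
      exact ⟨h1, h2⟩
  choose Bf hBf using hc
  -- the exceptional sets
  have hE : ∀ k : ℕ, ∃ E : Set (Fin n → ℝ), dimH E ≤ ENNReal.ofReal ((s + 1 / ((k : ℝ) + 1)) / σ) ∧ ∀ ξ ∉ E,
      ∀ p : J × ℕ × ℕ, {x | x ∈ Bad ht Rel p.1 p.2.1 (Bf p.1 p.2.1 k p.2.2) p.2.2 ∧
        dist (fun l => ((x l : ℚ) : ℝ)) ξ ≤ (size ht x) ^ (-σ)}.Finite := by
    intro k
    have hk : (0 : ℝ) < 1 / ((k : ℝ) + 1) := by positivity
    refine Pool.Agent.H107.ME.dim_family (fun x : Fin n → ℚ => fun l => ((x l : ℚ) : ℝ)) (size ht) (one_le_size ht)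
      (by positivity) hσ (fun p : J × ℕ × ℕ => Bad ht Rel p.1 p.2.1 (Bf p.1 p.2.1 k p.2.2) p.2.2) ?_
    intro p ε hε
    obtain ⟨C, hC⟩ := hBf p.1 p.2.1 k p.2.2
    refine ⟨|C|, fun X hX => ⟨(hC X hX).1, (hC X hX).2.trans ?_⟩⟩
    have h1 : X ^ (s + 1 / ((k : ℝ) + 1)) ≤ X ^ (s + 1 / ((k : ℝ) + 1) + ε) :=
      Real.rpow_le_rpow_of_exponent_le hX (by linarith)
    have h2 : 0 ≤ X ^ (s + 1 / ((k : ℝ) + 1)) := by positivity
    calc C * X ^ (s + 1 / ((k : ℝ) + 1)) ≤ |C| * X ^ (s + 1 / ((k : ℝ) + 1)) :=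
          mul_le_mul_of_nonneg_right (le_abs_self C) h2
      _ ≤ |C| * X ^ (s + 1 / ((k : ℝ) + 1) + ε) := mul_le_mul_of_nonneg_left h1 (abs_nonneg C)
  choose E hE1 hE2 using hE
  refine ⟨⋂ k, E k, ?_, fun ξ hξ hξE j A => ?_⟩
  · have h1 : Tendsto (fun k : ℕ => ENNReal.ofReal ((s + 1 / ((k : ℝ) + 1)) / σ)) atTop
        (𝓝 (ENNReal.ofReal (s / σ))) := by
      apply ENNReal.tendsto_ofReal
      have h2 : Tendsto (fun k : ℕ => (s + 1 / ((k : ℝ) + 1)) / σ) atTop (𝓝 ((s + 0) / σ)) :=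
        (tendsto_one_div_add_atTop_nhds_zero_nat.const_add s).div_const _
      simpa using h2
    exact ge_of_tendsto' h1 fun k => le_trans (dimH_mono (Set.iInter_subset _ k)) (hE1 k)
  · rw [Set.mem_iInter, not_forall] at hξE
    obtain ⟨k, hk⟩ := hξE
    obtain ⟨A', hA'⟩ := exists_nat_ge A
    -- a box around `ξ`
    obtain ⟨m, hm⟩ : ∃ m : ℕ, ∀ l, 2 / ξ l ≤ (m : ℝ) + 2 ∧ 2 * ξ l ≤ (m : ℝ) + 2 := by
      have h1 : ∀ l, ∃ m : ℕ, 2 / ξ l ≤ (m : ℝ) ∧ 2 * ξ l ≤ (m : ℝ) := by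
        intro l
        obtain ⟨m, hm⟩ := exists_nat_ge (max (2 / ξ l) (2 * ξ l))
        exact ⟨m, (le_max_left _ _).trans hm, (le_max_right _ _).trans hm⟩
      choose f hf using h1
      refine ⟨Finset.univ.sup f, fun l => ?_⟩
      have h2 : (f l : ℝ) ≤ ((Finset.univ.sup f : ℕ) : ℝ) := by exact_mod_cast Finset.le_sup (Finset.mem_univ l)
      exact ⟨by linarith [(hf l).1], by linarith [(hf l).2]⟩
    refine ⟨Bf j A' k m, ?_⟩
    have hfin := hE2 k ξ hk (j, A', m)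
    -- the points of small size
    obtain ⟨X₁, hX₁⟩ : ∃ X₁ : ℝ, ∀ y : ℝ, X₁ ≤ y → 1 ≤ y → y ^ (-σ) ≤ 1 / ((m : ℝ) + 2) := by
      have h1 : Tendsto (fun y : ℝ => y ^ (-σ)) atTop (𝓝 0) := tendsto_rpow_neg_atTop hσ
      have h2 := h1.eventually (ge_mem_nhds (show (0 : ℝ) < 1 / ((m : ℝ) + 2) by positivity))
      obtain ⟨X₁, hX₁⟩ := h2.exists_forall_of_atTop
      exact ⟨X₁, fun y hy _ => hX₁ y hy⟩
    have hsmall : {x : Fin n → ℚ | (∀ l, |(x l : ℝ) - ξ l| ≤ size ht x ^ (-σ)) ∧ size ht x ≤ X₁}.Finite := by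
      refine (finite_box htf (-((m : ℝ) + 3)) ((m : ℝ) + 3) X₁).subset ?_
      rintro x ⟨h1, h2⟩
      refine ⟨fun l => ?_, h2⟩
      have h3 := h1 l
      have h4 : size ht x ^ (-σ) ≤ 1 := by
        rw [← Real.one_rpow (-σ)]
        exact Real.rpow_le_rpow_of_nonpos one_pos (one_le_size ht x) (by linarith)
      have h5 := abs_le.1 (h3.trans h4)
      have h6 := (hm l).2
      have h7 := hξ l
      constructor <;> linarith [h5.1, h5.2]
    refine (hsmall.union hfin).subset ?_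
    rintro x ⟨h1, h2⟩
    by_cases h3 : size ht x ≤ X₁
    · exact Or.inl ⟨h1, h3⟩
    · right
      push Not at h3
      have hx1 := one_le_size ht x
      have h4 := hX₁ _ h3.le hx1
      refine ⟨⟨fun l => ?_, hmono j x _ _ _ _ ?_ le_rfl h2⟩, ?_⟩
      · have h5 := abs_le.1 ((h1 l).trans h4)
        have h6 := (hm l).1
        have h7 := (hm l).2
        have h8 := hξ l
        have hm0 : (0 : ℝ) < (m : ℝ) + 2 := by positivity
        have h9 : 2 / ((m : ℝ) + 2) ≤ ξ l := by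
          rw [div_le_iff₀ h8] at h6
          rw [div_le_iff₀ hm0]
          linarith
        have h10 : 2 / ((m : ℝ) + 2) = 2 * (1 / ((m : ℝ) + 2)) := by ring
        have h11 : 1 / ((m : ℝ) + 2) ≤ ξ l := by
          have : 0 < 1 / ((m : ℝ) + 2) := by positivity
          linarith
        constructor
        · linarith [h5.1]
        · linarith [h5.2]
      · exact Real.rpow_le_rpow_of_exponent_le hx1 hA'
      · rw [dist_pi_le_iff (Real.rpow_nonneg (by linarith) _)]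
        intro l
        rw [Real.dist_eq]
        exact h1 l

/-- **Near almost every point.** The same for almost all `ξ` and all `σ > s / n`. -/
theorem near_ae {J : Type*} [Countable J] (hn : 1 ≤ n)
    (htf : ∀ a b T : ℝ, {q : ℚ | (q : ℝ) ∈ Icc a b ∧ ht q ≤ T}.Finite)
    (Rel : J → (Fin n → ℚ) → ℝ → ℝ → Prop)
    (hmono : ∀ j x U U' δ δ', U ≤ U' → δ ≤ δ' → Rel j x U δ → Rel j x U' δ')
    {s : ℝ} (hs : 0 ≤ s)
    (hcount : ∀ (j : J) (A : ℕ) (a b ε : ℝ), 0 < a → a < b → 0 < ε → ∃ B C : ℝ, ∀ T : ℝ, 1 ≤ T →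
      {x : Fin n → ℚ | (∀ l, (x l : ℝ) ∈ Icc a b ∧ ht (x l) ≤ T) ∧ Rel j x (T ^ (A : ℝ)) (T ^ (-B))}.Finite ∧
      ({x : Fin n → ℚ | (∀ l, (x l : ℝ) ∈ Icc a b ∧ ht (x l) ≤ T) ∧ Rel j x (T ^ (A : ℝ)) (T ^ (-B))}.ncard : ℝ) ≤
        C * T ^ (s + ε)) :
    ∀ᵐ ξ : Fin n → ℝ, (∀ l, 0 < ξ l) → ∀ (σ : ℝ), s / n < σ → ∀ (j : J) (A : ℝ), ∃ B : ℝ,
      {x : Fin n → ℚ | (∀ l, |(x l : ℝ) - ξ l| ≤ size ht x ^ (-σ)) ∧
        Rel j x (size ht x ^ A) (size ht x ^ (-B))}.Finite := by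
  have hn0 : (0 : ℝ) < n := by exact_mod_cast hn
  have hpos : ∀ k : ℕ, 0 < s / n + 1 / ((k : ℝ) + 1) := fun k => by positivity
  have hall := fun k : ℕ => near_dim htf Rel hmono hs hcount (hpos k)
  choose E hE1 hE2 using hall
  have hnull : ∀ k, volume (E k) = 0 := by
    intro k
    refine Pool.Agent.H107.ME.null_of_dimH_lt ((hE1 k).trans_lt ?_)
    have g1 : s / (s / n + 1 / ((k : ℝ) + 1)) < n := by
      rw [div_lt_iff₀ (hpos k), mul_add, mul_div_cancel₀ _ hn0.ne']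
      have : (0 : ℝ) < (n : ℝ) * (1 / ((k : ℝ) + 1)) := by positivity
      linarith
    have g2 : ENNReal.ofReal (s / (s / n + 1 / ((k : ℝ) + 1))) < ENNReal.ofReal (n : ℝ) :=
      (ENNReal.ofReal_lt_ofReal_iff hn0).2 g1
    simpa using g2
  have hae : ∀ᵐ ξ : Fin n → ℝ, ∀ k, ξ ∉ E k := by
    rw [ae_all_iff]
    intro k
    exact compl_mem_ae_iff.2 (hnull k)
  filter_upwards [hae] with ξ hξ hpos' σ hσ j A
  obtain ⟨k, hk⟩ := exists_nat_one_div_lt (sub_pos.2 hσ)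
  obtain ⟨B, hB⟩ := hE2 k ξ hpos' (hξ k) j A
  refine ⟨B, hB.subset ?_⟩
  rintro x ⟨g1, g2⟩
  refine ⟨fun l => (g1 l).trans ?_, g2⟩
  exact Real.rpow_le_rpow_of_exponent_le (one_le_size ht x) (by linarith)

end

end Pool.Agent.H223.NP
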