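import Pool.Agent.Helper264.NT.NearK
import Pool.Agent.Y890.MV.Main

/-! The general near-point theorem of helper264 (`NT/NearGen`, `NT/NearPV`), with fewer imports. -/

set_option autoImplicit false
set_option linter.unusedSectionVars false

namespace Pool.Agent.H223.NP

open Filter Topology MeasureTheory Set NumberField
open scoped ENNReal NNReal
open Pool.Agent.Y890.MV Pool.Agent.Helper264.NT

theorem innerM_mono {X : Type} [Fintype X] (U : Set (X → ℂ)) {k k' : ℕ} (hk : 0 < k) (h : k ≤ k') :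
    InnerM U k ⊆ InnerM U k' := by
  rintro z ⟨h1, h2⟩
  refine ⟨h1.trans (by exact_mod_cast h), fun w hw => h2 ?_⟩
  rw [Metric.mem_ball] at hw ⊢
  refine lt_of_lt_of_le hw (inv_anti₀ (by exact_mod_cast hk) ?_)
  exact_mod_cast h

section

variable {X : Type} [Fintype X] [DecidableEq X] {σ : Type}

/-- the real or imaginary part of a polynomial vanishes at the real zeros -/
theorem real_part (P : MvPolynomial X ℂ) (hP : P ≠ 0) : ∃ Q : MvPolynomial X ℝ, Q ≠ 0 ∧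
    Q.totalDegree ≤ P.totalDegree ∧ ∀ x : X → ℝ, MvPolynomial.eval (fun i => Complex.ofRealHom (x i)) P = 0 →
      MvPolynomial.aeval x Q = 0 := by
  classical
  have key : ∀ φ : ℂ →ₗ[ℝ] ℝ, (∃ e, φ (P.coeff e) ≠ 0) → ∃ Q : MvPolynomial X ℝ, Q ≠ 0 ∧
      Q.totalDegree ≤ P.totalDegree ∧ ∀ x : X → ℝ, MvPolynomial.eval (fun i => Complex.ofRealHom (x i)) P = 0 →
        MvPolynomial.aeval x Q = 0 := by
    rintro φ ⟨e0, he0⟩
    set Q : MvPolynomial X ℝ := ∑ e ∈ P.support, MvPolynomial.monomial e (φ (P.coeff e)) with hQ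
    have hcoeff : ∀ e, Q.coeff e = φ (P.coeff e) := by
      intro e
      rw [hQ, MvPolynomial.coeff_sum]
      simp only [MvPolynomial.coeff_monomial]
      rw [Finset.sum_ite_eq' P.support e]
      split_ifs with h
      · rfl
      · rw [MvPolynomial.notMem_support_iff.1 h, map_zero]
    refine ⟨Q, ?_, ?_, ?_⟩
    · intro h
      apply he0
      rw [← hcoeff, h, MvPolynomial.coeff_zero]
    · refine Finset.sup_mono ?_
      intro e he
      rw [MvPolynomial.mem_support_iff, hcoeff] at he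
      rw [MvPolynomial.mem_support_iff]
      intro h
      exact he (by rw [h, map_zero])
    · intro x hx
      have h1 : (MvPolynomial.aeval x Q : ℝ) = φ (MvPolynomial.eval (fun i => Complex.ofRealHom (x i)) P) := by
        rw [hQ, map_sum, MvPolynomial.eval_eq', map_sum]
        refine Finset.sum_congr rfl fun e _ => ?_
        rw [MvPolynomial.aeval_monomial, Finsupp.prod_fintype _ _ (fun i => pow_zero _)]
        have h2 : (∏ i, Complex.ofRealHom (x i) ^ e i : ℂ) = ((∏ i, x i ^ e i : ℝ) : ℂ) := by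
          push_cast
          rfl
        rw [h2, mul_comm (MvPolynomial.coeff e P), ← Complex.real_smul, map_smul, smul_eq_mul, mul_comm]
        rfl
      rw [h1, hx, map_zero]
  obtain ⟨e, he⟩ := MvPolynomial.ne_zero_iff.1 hP
  by_cases hre : (P.coeff e).re = 0
  · refine key Complex.imLm ⟨e, fun h => he ?_⟩
    exact Complex.ext hre h
  · exact key Complex.reLm ⟨e, hre⟩

/-- **The general near-point theorem.** -/
theorem near_gen {𝕜 : Type} [RCLike 𝕜] (τ₀ : 𝕜 →+* ℂ) (hτ₀ : ∀ a, ‖a‖ = ‖τ₀ a‖)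
    (hQ : ∀ P : MvPolynomial X ℂ, P ≠ 0 → ∃ Q : MvPolynomial X 𝕜, Q ≠ 0 ∧
      Q.totalDegree ≤ P.totalDegree ∧ ∀ x : X → 𝕜, MvPolynomial.eval (fun i => τ₀ (x i)) P = 0 →
        MvPolynomial.aeval x Q = 0)
    {U : Set (X → ℂ)} (hUo : IsOpen U)
    (Rel : ℕ → ∀ (K : Type) [Field K] [NumberField K], (K →+* ℂ) → (X → K) → ℝ → Prop)
    (hmono : ∀ (k : ℕ) (K : Type) [Field K] [NumberField K] (io : K →+* ℂ) (s : X → K) (T T' : ℝ), 1 ≤ T → T ≤ T' →
      Rel k K io s T → Rel k K io s T')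
    (hcov : ∀ (k₀ k m : ℕ) (ε : ℝ), 0 < k₀ → 0 < ε → ∃ (D : ℕ) (C T₀ : ℝ), 0 ≤ C ∧ 2 ≤ T₀ ∧
      ∀ (K : Type) [Field K] [NumberField K], Module.finrank ℚ K ≤ m → ∀ (io : K →+* ℂ) (T : ℝ),
        T₀ ≤ T → Pool.Agent.Y124.Cov D ⌊C * T ^ ε⌋₊ ((fun (s : X → K) i => io (s i)) ''
          {s | (∀ j, Pool.Agent.Y120.HtLe K T (s j)) ∧ (fun j => io (s j)) ∈ InnerM U k₀ ∧ Rel k K io s T})) :
    ∃ E : Set (X → 𝕜), dimH E ≤ ((Module.finrank ℝ 𝕜 * (Fintype.card X - 1) : ℕ) : ℝ≥0∞) ∧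
      ∀ z ∉ E, (fun i => τ₀ (z i)) ∈ U → ∀ (K : IntermediateField ℚ 𝕜) [NumberField K] (w : ℝ) (k : ℕ), 0 < w →
        ∃ T₁ : ℝ, ∀ T : ℝ, T₁ ≤ T → ∀ s : X → K, (∀ i, Pool.Agent.Y120.HtLe K T (s i)) → (∀ i, ‖(s i : 𝕜) - z i‖ ≤ T ^ (-w)) →
          ¬ Rel k K (τ₀.comp (algebraMap K 𝕜)) s T := by
  classical
  let J : Type := {K : IntermediateField ℚ 𝕜 // NumberField K} × (ℕ × ℕ)
  have : Countable {K : IntermediateField ℚ 𝕜 // NumberField K} := countable_fields'.to_subtype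
  let Ex : J → ℝ → ℝ → Set (X → 𝕜) := fun j _ T =>
    haveI : NumberField j.1.1 := j.1.2
    {p | 1 ≤ T ∧ ∃ s : X → j.1.1, ((∀ i, Pool.Agent.Y120.HtLe j.1.1 T (s i)) ∧
      (fun i => (τ₀.comp (algebraMap j.1.1 𝕜)) (s i)) ∈ InnerM U (j.2.1 + 1) ∧
      Rel j.2.2 j.1.1 (τ₀.comp (algebraMap j.1.1 𝕜)) s T) ∧ p = fun i => (s i : 𝕜)}
  have hThin : ∀ j : J, Thin ((j.2.1 : ℝ) + 1) (Ex j) := by
    intro j
    have : NumberField j.1.1 := j.1.2
    refine ⟨?_, ?_, ?_, ?_⟩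
    · rintro B T _ ⟨_, s, hs, rfl⟩
      rw [mem_closedBall_zero_iff, pi_norm_le_iff_of_nonneg (by positivity)]
      intro x
      have h1 : ‖(fun i => (τ₀.comp (algebraMap j.1.1 𝕜)) (s i))‖ ≤ ((j.2.1 + 1 : ℕ) : ℝ) := hs.2.1.1
      rw [hτ₀]
      refine (norm_le_pi_norm (fun i => (τ₀.comp (algebraMap j.1.1 𝕜)) (s i)) x).trans (h1.trans ?_)
      push_cast
      exact le_rfl
    · rintro B B' T T' hB hBB hT h2T hTT hT2 _ ⟨_, s, hs, rfl⟩
      refine ⟨hT.trans hTT, s, ⟨fun i => ?_, hs.2.1, hmono _ _ _ _ _ _ hT hTT hs.2.2⟩, rfl⟩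
      obtain ⟨a, b, g1, g2, g3, g4⟩ := hs.1 i
      exact ⟨a, b, g1, g2.trans hTT, g3.trans hTT, g4⟩
    · rintro B B' T hT hBB _ ⟨h1, s, hs, rfl⟩
      exact ⟨h1, s, hs, rfl⟩
    · intro ε hε
      obtain ⟨D, C, T₀, hC, hT₀, h⟩ := hcov (j.2.1 + 1) j.2.2 (Module.finrank ℚ j.1.1) ε (Nat.succ_pos _) hε
      refine ⟨D, 0, C * T₀ ^ ε, by positivity, fun T hT => ?_⟩
      have hTm : T₀ ≤ max T₀ T := le_max_left _ _
      obtain ⟨Φ, h1, h2, h3⟩ := h j.1.1 le_rfl (τ₀.comp (algebraMap j.1.1 𝕜)) (max T₀ T) hTm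
      choose! q hq1 hq2 hq3 using hQ
      refine ⟨Φ.image q, ?_, ?_, ?_⟩
      · have h4 : ((Φ.image q).card : ℝ) ≤ (⌊C * (max T₀ T) ^ ε⌋₊ : ℝ) := by
          exact_mod_cast Finset.card_image_le.trans h1
        refine h4.trans ((Nat.floor_le (by positivity)).trans ?_)
        rw [mul_assoc]
        refine mul_le_mul_of_nonneg_left ?_ hC
        have h5 : max T₀ T ≤ T₀ * T := by
          refine max_le ?_ ?_
          · nlinarith
          · nlinarith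
        calc (max T₀ T) ^ ε ≤ (T₀ * T) ^ ε := Real.rpow_le_rpow (by positivity) h5 hε.le
          _ = T₀ ^ ε * T ^ ε := Real.mul_rpow (by linarith) (by linarith)
      · intro P hP
        obtain ⟨P', hP', rfl⟩ := Finset.mem_image.1 hP
        exact ⟨hq1 P' (h2 P' hP').1, (hq2 P' (h2 P' hP').1).trans (h2 P' hP').2⟩
      · rintro _ ⟨_, s, hs, rfl⟩
        have h4 : s ∈ {s : X → j.1.1 | (∀ i, Pool.Agent.Y120.HtLe j.1.1 (max T₀ T) (s i)) ∧
            (fun i => (τ₀.comp (algebraMap j.1.1 𝕜)) (s i)) ∈ InnerM U (j.2.1 + 1) ∧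
            Rel j.2.2 j.1.1 (τ₀.comp (algebraMap j.1.1 𝕜)) s (max T₀ T)} := by
          refine ⟨fun i => ?_, hs.2.1, hmono _ _ _ _ _ _ hT (le_max_right T₀ T) hs.2.2⟩
          obtain ⟨a, b, g1, g2, g3, g4⟩ := hs.1 i
          exact ⟨a, b, g1, g2.trans (le_max_right T₀ T), g3.trans (le_max_right T₀ T), g4⟩
        obtain ⟨P, hP, hP0⟩ := h3 _ ⟨s, h4, rfl⟩
        exact ⟨q P, Finset.mem_image_of_mem _ hP, hq3 P (h2 P hP).1 _ hP0⟩
  obtain ⟨E, hE1, hE2⟩ := near_all (fun j : J => (j.2.1 : ℝ) + 1)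
    (fun j => by linarith [Nat.cast_nonneg (α := ℝ) j.2.1]) Ex hThin
  refine ⟨E, hE1, fun z hz hzU K hK w k hw => ?_⟩
  -- a compact neighbourhood of `z`
  obtain ⟨δ, hδ, hball⟩ := Metric.isOpen_iff.1 hUo _ hzU
  obtain ⟨k', hk₀⟩ := exists_nat_gt (max (2 / δ) (‖(fun i => τ₀ (z i))‖ + 1))
  have hk₀1 : (1 : ℝ) < k' := by
    have := (le_max_right (2 / δ) (‖(fun i => τ₀ (z i))‖ + 1)).trans_lt hk₀
    have := norm_nonneg (fun i => τ₀ (z i))
    linarith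
  have hk'pos : (0 : ℝ) < k' := by linarith
  have hk'pos' : 0 < k' := by exact_mod_cast hk'pos
  obtain ⟨B, T0, hB⟩ := hE2 z hz (⟨K, hK⟩, (k', k)) w hw
  have hlim1 : Tendsto (fun T : ℝ => T ^ (-w)) atTop (𝓝 0) := tendsto_rpow_neg_atTop (by linarith)
  obtain ⟨T₂, hT₂⟩ := Filter.eventually_atTop.1
    (hlim1.eventually (ge_mem_nhds (show (0 : ℝ) < 1 / k' by positivity)))
  refine ⟨max (max T₂ T0) 1, fun T hT s hs hsz hrel => ?_⟩
  have hTT₂ : T₂ ≤ T := ((le_max_left _ _).trans (le_max_left _ _)).trans hT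
  have hTT0 : T0 ≤ T := ((le_max_right _ _).trans (le_max_left _ _)).trans hT
  have hT1 : 1 ≤ T := (le_max_right _ _).trans hT
  have hT0 : 0 < T := by linarith
  have hnear := hT₂ T hTT₂
  have hsz' : ‖(fun i => (τ₀.comp (algebraMap K 𝕜)) (s i)) - fun i => τ₀ (z i)‖ ≤ 1 / k' := by
    rw [pi_norm_le_iff_of_nonneg (by positivity)]
    intro i
    rw [Pi.sub_apply]
    change ‖τ₀ (s i : 𝕜) - τ₀ (z i)‖ ≤ _
    rw [← map_sub, ← hτ₀]
    exact (hsz i).trans hnear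
  have hinner : (fun i => (τ₀.comp (algebraMap K 𝕜)) (s i)) ∈ InnerM U k' := by
    refine ⟨?_, ?_⟩
    · have h1 : ‖(fun i => (τ₀.comp (algebraMap K 𝕜)) (s i))‖ ≤
          ‖(fun i => (τ₀.comp (algebraMap K 𝕜)) (s i)) - fun i => τ₀ (z i)‖ + ‖(fun i => τ₀ (z i))‖ := by
        have := norm_add_le ((fun i => (τ₀.comp (algebraMap K 𝕜)) (s i)) - fun i => τ₀ (z i)) (fun i => τ₀ (z i))
        rwa [sub_add_cancel] at this
      have hk'' : 1 / (k' : ℝ) ≤ 1 := by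
        rw [div_le_one hk'pos]
        linarith
      have h2 := (le_max_right (2 / δ) (‖(fun i => τ₀ (z i))‖ + 1)).trans_lt hk₀
      linarith
    · refine Set.Subset.trans (fun y hy => ?_) hball
      rw [Metric.mem_ball] at hy ⊢
      have h1 := dist_triangle y (fun i => (τ₀.comp (algebraMap K 𝕜)) (s i)) (fun i => τ₀ (z i))
      have h2 : dist (fun i => (τ₀.comp (algebraMap K 𝕜)) (s i)) (fun i => τ₀ (z i)) ≤ 1 / k' := by
        rw [dist_eq_norm]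
        exact hsz'
      have h3 := (le_max_left (2 / δ) (‖(fun i => τ₀ (z i))‖ + 1)).trans_lt hk₀
      have h4 : 2 / δ < k' := h3
      have h5 : 2 / (k' : ℝ) < δ := by
        rw [div_lt_iff₀ hδ] at h4
        rw [div_lt_iff₀ hk'pos]
        linarith
      have h6 : (k' : ℝ)⁻¹ = 1 / k' := (one_div _).symm
      have h7 : 2 / (k' : ℝ) = 1 / k' + 1 / k' := by ring
      linarith
  refine hB T hTT0 (fun i => (s i : 𝕜)) ⟨hT1, s, ⟨hs, innerM_mono U hk'pos' (Nat.le_succ k') hinner, hrel⟩, rfl⟩ ?_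
  rw [dist_pi_le_iff (Real.rpow_nonneg hT0.le _)]
  intro i
  rw [dist_eq_norm]
  exact hsz i


end

end Pool.Agent.H223.NP
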