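import Pool.Agent.H223.NP.Gen

set_option autoImplicit false

/-! The height of tuples of rational numbers. -/

namespace Pool.Agent.H223.NP

open Set

/-- the height of a rational number: the maximum of the absolute values of the numerator and the denominator -/
noncomputable def ht (q : ℚ) : ℝ := ((max q.num.natAbs q.den : ℕ) : ℝ)

lemma num_le (q : ℚ) : (q.num.natAbs : ℝ) ≤ ht q := by
  unfold ht
  exact_mod_cast le_max_left _ _

lemma den_le (q : ℚ) : (q.den : ℝ) ≤ ht q := by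
  unfold ht
  exact_mod_cast le_max_right _ _

lemma ht_eq (q : ℚ) : Height.mulHeight₁ q = ht q := by
  rw [Rat.mulHeight₁_eq_max]
  rfl

lemma sub_box (T : ℝ) : (fun q : ℚ => ((q.num : ℤ), (q.den : ℕ))) '' {q : ℚ | ht q ≤ T} ⊆
    ((Finset.Icc (-(⌊T⌋₊ : ℤ)) ⌊T⌋₊ ×ˢ Finset.Icc 1 ⌊T⌋₊ : Finset (ℤ × ℕ)) : Set (ℤ × ℕ)) := by
  rintro p ⟨q, hq, rfl⟩
  have hq' : ht q ≤ T := hq
  have h1 : q.num.natAbs ≤ ⌊T⌋₊ := Nat.le_floor ((num_le q).trans hq')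
  have h2 : q.den ≤ ⌊T⌋₊ := Nat.le_floor ((den_le q).trans hq')
  rw [Finset.mem_coe, Finset.mem_product, Finset.mem_Icc, Finset.mem_Icc]
  have h3 := q.pos
  refine ⟨⟨?_, ?_⟩, ?_, h2⟩
  · simp only
    omega
  · simp only
    omega
  · exact h3

lemma inj : Function.Injective (fun q : ℚ => ((q.num : ℤ), (q.den : ℕ))) := by
  intro q q' h
  simp only [Prod.mk.injEq] at h
  exact Rat.ext h.1 h.2

lemma fin (T : ℝ) : {q : ℚ | ht q ≤ T}.Finite :=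
  Set.Finite.of_finite_image ((Finset.finite_toSet _).subset (sub_box T)) inj.injOn

lemma fin_Icc (a b T : ℝ) : {q : ℚ | (q : ℝ) ∈ Icc a b ∧ ht q ≤ T}.Finite :=
  (fin T).subset fun _ h => h.2

lemma card_le {T : ℝ} (hT : 1 ≤ T) : ({q : ℚ | ht q ≤ T}.ncard : ℝ) ≤ 3 * T ^ 2 := by
  have h1 := Set.ncard_le_ncard (sub_box T) (Finset.finite_toSet _)
  rw [Set.ncard_image_of_injective _ inj, Set.ncard_coe_finset, Finset.card_product, Int.card_Icc, Nat.card_Icc] at h1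
  have h2 : ((⌊T⌋₊ : ℤ) + 1 - -(⌊T⌋₊ : ℤ)).toNat = 2 * ⌊T⌋₊ + 1 := by omega
  rw [h2, Nat.add_sub_cancel] at h1
  have h3 : ({q : ℚ | ht q ≤ T}.ncard : ℝ) ≤ ((2 * ⌊T⌋₊ + 1) * ⌊T⌋₊ : ℕ) := by exact_mod_cast h1
  push_cast at h3
  have h4 : (⌊T⌋₊ : ℝ) ≤ T := Nat.floor_le (by linarith)
  have h5 : (0 : ℝ) ≤ ⌊T⌋₊ := Nat.cast_nonneg _
  nlinarith

end Pool.Agent.H223.NP
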